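import Pool.Agent.Y561.SQ.QUp

set_option autoImplicit false

/-! # Odd integers of the form `f(p) + q`, `f = X² + b X + c`, the prime `p` in an arbitrary finite set

The exact order of magnitude of the least possible number of the odd integers `n ≤ x` of the form
`f(p) + q`, `p ∈ S`, `q` prime, over the sets `S` of `s` primes up to `M`, uniformly for
`4 M² ≤ x`. -/

namespace Pool.Agent.Results.MP_d9bc60_nt.ArbitrarySetsOfArguments

open Finset

open Classical in
/-- The odd integers `n` with `1 ≤ n ≤ x` of the form `f(p) + q`, `p ∈ S`, `q` prime, where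
`f = X² + b X + c`. -/
noncomputable def represented (b c : ℤ) (S : Finset ℕ) (x : ℕ) : Finset ℕ :=
  (Icc 1 x).filter (fun n => Odd n ∧ ∃ p ∈ S, ∃ q : ℕ, q.Prime ∧ ((p : ℤ) ^ 2 + b * p + c) + q = n)

/-- The primes from `|b| + |c| + 3` on up to `M`. -/
def args (b c : ℤ) (M : ℕ) : Finset ℕ :=
  (range (M + 1)).filter (fun p => p.Prime ∧ b.natAbs + c.natAbs + 3 ≤ p)

/-- **Theorem.** Let `f = X² + b X + c` with `b`, `c` of opposite parity (in particular, any admissible
`f`), and let `π` be the prime counting function.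

(1) There is `κ > 0` such that for all large `x`, all `M` with `4 M² ≤ x` and every nonempty set `S` of
primes `p` with `|b| + |c| + 3 ≤ p ≤ M`, at least `κ x min (|S| / log x, 1 / log log (16 π(M) / |S|))` of
the odd integers up to `x` are of the form `f(p) + q`, `p ∈ S`, `q` prime.

(2) This is the exact order: there is `C` such that for all large `x`, all `M ≤ x` and all `s ≥ 1` for
which there are `s` primes `p` with `|b| + |c| + 3 ≤ p ≤ M`, some set `S` of exactly `s` such primes has
at most `C x min (s / log x, 1 / log log (16 π(M) / s))` such odd integers. -/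
theorem result (b c : ℤ) (hbc : Odd (b + c)) :
    (∃ κ : ℝ, 0 < κ ∧ ∃ x₀ : ℕ, ∀ x M : ℕ, x₀ ≤ x → 4 * M ^ 2 ≤ x →
      ∀ S : Finset ℕ, S.Nonempty → S ⊆ args b c M →
        κ * (x * min (S.card / Real.log x)
          (1 / Real.log (Real.log (16 * Nat.primeCounting M / S.card)))) ≤
            (represented b c S x).card) ∧
    (∃ C : ℝ, 0 < C ∧ ∃ x₀ : ℕ, ∀ x M s : ℕ, x₀ ≤ x → M ≤ x → 1 ≤ s → s ≤ (args b c M).card →
      ∃ S ⊆ args b c M, S.card = s ∧
        ((represented b c S x).card : ℝ) ≤
          C * (x * min (s / Real.log x)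
            (1 / Real.log (Real.log (16 * Nat.primeCounting M / s))))) := by
  refine ⟨?_, ?_⟩
  · obtain ⟨κ, hκ, x₀, h⟩ := Pool.Agent.Y561.SQ.lower_qsums b c hbc
    refine ⟨κ, hκ, x₀, fun x M hx hM S hSne hS => ?_⟩
    refine h x M hx hM S hSne (fun p hp => ?_)
    have h1 := hS hp
    unfold args at h1
    rw [mem_filter, mem_range] at h1
    exact ⟨h1.2.1, h1.2.2, by omega⟩
  · obtain ⟨C, hC, x₀, h⟩ := Pool.Agent.Y561.SQ.upper_qsums b c
    refine ⟨C, hC, x₀, fun x M s hx hM hs hsM => ?_⟩
    obtain ⟨S, h1, h2, h3⟩ := h x M s hx hM hs hsM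
    refine ⟨S, fun p hp => ?_, h2, h3⟩
    have h4 := h1 p hp
    unfold args
    rw [mem_filter, mem_range]
    exact ⟨by omega, h4.1, h4.2.1⟩

end Pool.Agent.Results.MP_d9bc60_nt.ArbitrarySetsOfArguments
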