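import Mathlib
import Pool.Agent.Y868.TC.P6

/-!
# `n = f(p) + p'`: every `n`, almost all `f`

Let `n` be any given integer. For almost all polynomials `f = a X² + b X + c` with given constant term
`c` (more generally `f = X (P + a X + b) + c` with given `P`), where `a ≤ D` may be restricted to a fixed
power of `log x`, the number of representations `n = f(p) + p'` with primes `p` and `p'` is asymptotic to
the number predicted by Schinzel's hypothesis. The integer `n` is not averaged over: this is the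
complement of the theorem of van der Corput, where `f` is given and almost all `n` are treated.

Proof. For given `p` the equation says that `p' ≡ n - c (mod p)` with complementary divisor
`-(P(p) + a p + b)`. The condition that `n - f(p)` is prime is replaced by its sieve model on average
over `(a, b)`, with the weights `log p` on the primes `p` (Fourier analysis, large sieve on the minor
arcs, theorem of Bombieri and Vinogradov on the major arcs); the sum over the primes `p` with `n - f(p)`
free of small prime factors is evaluated with Bonferroni's inequalities and the theorem of Bombieri and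
Vinogradov.
-/

set_option autoImplicit false

namespace Pool.Agent.Results.MP_d9bc60_nt.EveryIntegerAlmostAllF

open Finset
open Polynomial (X C)
open scoped Polynomial

/-- the polynomial `X (P + a X + b) + c` -/
noncomputable def poly (P : ℤ[X]) (a b : ℕ) (c : ℤ) : ℤ[X] := X * (P + C (a : ℤ) * X + C (b : ℤ)) + C c

/-- the number of representations `n = f(p) + p'` with primes `p, p'` -/
noncomputable def reps (n : ℤ) (f : ℤ[X]) : ℕ := {p : ℕ | p.Prime ∧ (n - f.eval (p : ℤ)).toNat.Prime}.ncard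

/-- the product of `X` and `n - f` has no fixed prime divisor -/
def NoFixed (n : ℤ) (f : ℤ[X]) : Prop := ∀ p : ℕ, p.Prime → ∃ m : ℤ, ¬ (p : ℤ) ∣ m * (n - f.eval m)

/-- the number of zeros modulo `p` of the product of `X` and `n - f` -/
noncomputable def omega (n : ℤ) (f : ℤ[X]) (p : ℕ) : ℕ :=
  #((range p).filter (fun m : ℕ => (p : ℤ) ∣ m * (n - f.eval (m : ℤ))))

/-- the singular series cut at `z` -/
noncomputable def sing (n : ℤ) (f : ℤ[X]) (z : ℕ) : ℝ :=
  ∏ p ∈ (Icc 1 z).filter Nat.Prime, (1 - (omega n f p : ℝ) / p) / (1 - 1 / (p : ℝ)) ^ 2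

/-- the sum of `1 / (log m log (n - f(m)))` over `2 ≤ m ≤ x` with `n - f(m) ≥ 2` -/
noncomputable def mainSum (n : ℤ) (f : ℤ[X]) (x : ℕ) : ℝ :=
  ∑ m ∈ (Icc 2 x).filter (fun m : ℕ => 2 ≤ n - f.eval (m : ℤ)),
    1 / (Real.log m * Real.log ((n - f.eval (m : ℤ) : ℤ) : ℝ))

/-- **Every integer, almost all polynomials.** Let `d ≥ 2` and `U, K ≥ 0`. There are `C₀`, `E₁` such that
the following holds for every `E` if `x ≥ x₀(E)`. Let `(log x)^E₁ ≤ z ≤ (log x)^E`, let
`(log x)^C₀ ≤ D ≤ x^K` and `D x (log x)^(-K) ≤ B ≤ D x (log x)^K`, let `n` and `c` be any integers with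
`B x (log x)^(-K) ≤ n - c ≤ B x (log x)^(-U-2)`, and let `P` be an integral polynomial of degree less than
`d` with nonnegative coefficients and `P(x) ≤ B (log x)^K` (for instance `P = 0`). For all but
`D B / (log x)^U` of the pairs `(a, b)` with `1 ≤ a ≤ D` and `1 ≤ b ≤ B` the following holds for
`f = X (P + a X + b) + c`: if `X (n - f)` has no fixed prime divisor, then the number of representations
`n = f(p) + p'` with primes `p, p'` differs from `𝔖_z ∑ 1 / (log m log (n - f(m)))` by at most
`(log x)^(-U)` times this product. -/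
theorem result (d U K : ℕ) (hd : 2 ≤ d) : ∃ C₀ E₁ : ℕ, ∀ E : ℕ, ∃ x₀ : ℕ, ∀ x : ℕ, x₀ ≤ x → ∀ z : ℕ,
    Real.log x ^ E₁ ≤ z → (z : ℝ) ≤ Real.log x ^ E → ∀ D B : ℕ, Real.log x ^ C₀ ≤ D → (D : ℝ) ≤ (x : ℝ) ^ K →
    (D : ℝ) * x ≤ B * Real.log x ^ K → (B : ℝ) ≤ D * x * Real.log x ^ K →
    ∀ n c : ℤ, (B : ℝ) * x ≤ (n - c) * Real.log x ^ K → ((n : ℝ) - c) * Real.log x ^ (U + 2) ≤ B * x →
    ∀ P : ℤ[X], P.natDegree + 1 ≤ d → (∀ j, 0 ≤ P.coeff j) → ((P.eval (x : ℤ) : ℤ) : ℝ) ≤ B * Real.log x ^ K →
    ∃ Bad ⊆ Icc 1 D ×ˢ Icc 1 B, (#Bad : ℝ) ≤ (D : ℝ) * B / Real.log x ^ U ∧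
      ∀ q ∈ Icc 1 D ×ˢ Icc 1 B, q ∉ Bad → ∀ f : ℤ[X], f = poly P q.1 q.2 c → NoFixed n f →
        |(reps n f : ℝ) - sing n f z * mainSum n f x| ≤ sing n f z * mainSum n f x / Real.log x ^ U :=
  Pool.Agent.Y868.TC.Rep.final d U K hd

end Pool.Agent.Results.MP_d9bc60_nt.EveryIntegerAlmostAllF
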