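import Pool.Agent.Y879.GL.Two
import Pool.Agent.Y879.GL.Pattern

set_option autoImplicit false

/-!
Representations `n = f(x) + y` with almost primes `x`, `y`, for EVERY large odd `n`, uniformly in the
monic quadratic polynomial `f`: for every `A`, all large odd `n` and all admissible
`f = x ^ 2 + b x + c` with `|b|, |c| ≤ n ^ A` and `n ∉ f(ℤ)`, the `x` for which neither `x` nor
`n - f(x)` has a prime factor up to `n ^ (1 / r)` have the expected density in every interval of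
length at least `n ^ θ`, and the gaps between them follow the exponential (Gamma) laws.
-/

namespace Pool.Agent.Results.MP_d9bc60_nt.GapLawEveryOdd

open Finset Polynomial Filter

/-- neither `x` nor `n - f(x)`, `f = x ^ 2 + b x + c`, has a prime factor `p ≤ n ^ (1 / r)` -/
def Good (b c : ℤ) (n r x : ℕ) : Prop :=
  ∀ p : ℕ, p.Prime → (p : ℝ) ≤ (n : ℝ) ^ (1 / (r : ℝ)) →
    ¬ p ∣ x ∧ ¬ (p : ℤ) ∣ (n : ℤ) - ((x : ℤ) ^ 2 + b * x + c)

/-- the number of the `x` modulo `p` with `x (n - f(x)) ≡ 0` -/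
def omega (b c : ℤ) (n p : ℕ) : ℕ :=
  ((range p).filter (fun x : ℕ => (p : ℤ) ∣ (x : ℤ) * ((n : ℤ) - ((x : ℤ) ^ 2 + b * x + c)))).card

/-- the product of `1 - omega(p) / p` over the primes `p ≤ n ^ (1 / r)` -/
noncomputable def V (b c : ℤ) (n r : ℕ) : ℝ :=
  ∏ p ∈ (Icc 1 ⌊(n : ℝ) ^ (1 / (r : ℝ))⌋₊).filter Nat.Prime, (1 - (omega b c n p : ℝ) / p)

open Classical in
/-- the number of good `x` in `(u, u + Y]` with fewer than `k` good numbers in `[x - T, x)` -/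
noncomputable def Near (b c : ℤ) (n r k T u Y : ℕ) : ℕ :=
  ((Ioc u (u + Y)).filter (fun x => Good b c n r x ∧
    ((Ico (x - T) x).filter (Good b c n r)).card < k)).card

lemma Q_iff (b c : ℤ) (n p x : ℕ) :
    Pool.Agent.W123.RU.Poly.Q (Pool.Agent.Y879.GL.s2 b c n) p x ↔
      p ∣ x ∨ (p : ℤ) ∣ (n : ℤ) - ((x : ℤ) ^ 2 + b * x + c) := by
  unfold Pool.Agent.W123.RU.Poly.Q
  rw [Fin.exists_fin_two, Pool.Agent.Y879.GL.s2_eval0, Pool.Agent.Y879.GL.s2_eval1,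
    Int.natCast_dvd_natCast]

lemma good_iff (b c : ℤ) (n r x : ℕ) : Good b c n r x ↔ Pool.Agent.TH464.PO.Sf
      (Pool.Agent.W123.RU.Poly.Q (Pool.Agent.Y879.GL.s2 b c n)) ⌊(n : ℝ) ^ (1 / (r : ℝ))⌋₊ x := by
  unfold Good Pool.Agent.TH464.PO.Sf
  constructor
  · intro h p hp hQ
    obtain ⟨hp1, hp2⟩ := Pool.Agent.H373R2.T7.mem_pz.1 hp
    obtain ⟨h1, h2⟩ := h p hp2 ((Nat.le_floor_iff (by positivity)).1 hp1)
    rw [Q_iff] at hQ
    rcases hQ with h3 | h3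
    · exact h1 h3
    · exact h2 h3
  · intro h p hp hpr
    have h1 := h p (Pool.Agent.H373R2.T7.mem_pz.2 ⟨Nat.le_floor hpr, hp⟩)
    rw [Q_iff] at h1
    push Not at h1
    exact h1

open Classical in
lemma omega_eq (b c : ℤ) (n p : ℕ) (hp : p.Prime) : omega b c n p = Pool.Agent.H373R2.T7.nuB
      (Pool.Agent.W123.RU.Poly.Q (Pool.Agent.Y879.GL.s2 b c n)) p := by
  unfold omega Pool.Agent.H373R2.T7.nuB
  apply congrArg Finset.card
  ext x
  rw [mem_filter, mem_filter, Q_iff, (Nat.prime_iff_prime_int.1 hp).dvd_mul, Int.natCast_dvd_natCast]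

lemma V_eq (b c : ℤ) (n r : ℕ) : V b c n r = Pool.Agent.W123.RP.Vq
      (Pool.Agent.W123.RU.Poly.Q (Pool.Agent.Y879.GL.s2 b c n)) ⌊(n : ℝ) ^ (1 / (r : ℝ))⌋₊ := by
  unfold V Pool.Agent.W123.RP.Vq
  apply Finset.prod_congr rfl
  intro p hp
  rw [omega_eq b c n p (mem_filter.1 hp).2]

open Classical in
lemma Near_eq (b c : ℤ) (n r k T u Y : ℕ) :
    Near b c n r k T u Y = Pool.Agent.TH464.PO.Pk (Pool.Agent.TH464.PO.Sf
      (Pool.Agent.W123.RU.Poly.Q (Pool.Agent.Y879.GL.s2 b c n)) ⌊(n : ℝ) ^ (1 / (r : ℝ))⌋₊) k T u Y := by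
  have e : Pool.Agent.TH464.PO.Sf
      (Pool.Agent.W123.RU.Poly.Q (Pool.Agent.Y879.GL.s2 b c n)) ⌊(n : ℝ) ^ (1 / (r : ℝ))⌋₊ =
      Good b c n r := funext fun x => propext (good_iff b c n r x).symm
  rw [e]
  rfl

/-- **Representations of every large odd `n` by almost primes, uniformly in `f`.** For all `A`,
`θ, ε > 0`, `x₀`, `k₀` there is `r₀` such that for all `r ≥ r₀` there are `κ > 0`, `n₀` such that for
all odd `n ≥ n₀` and all admissible `f = x ^ 2 + b x + c` with `|b|, |c| ≤ n ^ A` and `n ∉ f(ℤ)`: (1)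
for all good `x ≤ n ^ (A + 1)` the integers `x` and `n - f(x)` are not zero and their product has at
most `(3 A + 5) r` prime factors; (2) `κ / (log n) ^ 5 ≤ V ≤ 1 / (κ log n)`; (3) in every interval
`(u, u + Y]` with `Y ≥ n ^ θ`, for all `T` and all `k ≤ k₀` (and for all `k` if `T V ≤ x₀`), the
number of good `x` with fewer than `k` good numbers in `[x - T, x)` is
`Y V (e ^ (-TV) ∑ j < k, (TV) ^ j / j! + δ)` with `|δ| ≤ ε`. -/
theorem result (A : ℕ) (θ ε x₀ : ℝ) (k₀ : ℕ) (hθ : 0 < θ) (hε : 0 < ε) :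
    ∃ r₀ : ℕ, ∀ r : ℕ, r₀ ≤ r → ∃ κ : ℝ, 0 < κ ∧ ∃ n₀ : ℕ, ∀ n : ℕ, n₀ ≤ n → Odd n →
      ∀ b c : ℤ, |b| ≤ (n : ℤ) ^ A → |c| ≤ (n : ℤ) ^ A → Odd (b + c) → ¬ (3 : ℤ) ∣ b →
      (∀ x : ℤ, x ^ 2 + b * x + c ≠ n) →
      (∀ x : ℕ, x ≤ n ^ (A + 1) → Good b c n r x →
        (x : ℤ) * ((n : ℤ) - ((x : ℤ) ^ 2 + b * x + c)) ≠ 0 ∧
        ((x : ℤ) * ((n : ℤ) - ((x : ℤ) ^ 2 + b * x + c))).natAbs.primeFactorsList.length ≤
          (3 * A + 5) * r) ∧
      κ / Real.log n ^ 5 ≤ V b c n r ∧ V b c n r ≤ 1 / (κ * Real.log n) ∧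
      ∀ u Y k T : ℕ, (n : ℝ) ^ θ ≤ Y → (k ≤ k₀ ∨ T * V b c n r ≤ x₀) →
        |(Near b c n r k T u Y : ℝ) - Y * V b c n r *
            ∑ j ∈ range k, Real.exp (-(T * V b c n r)) * (T * V b c n r) ^ j / j.factorial| ≤
          ε * (Y * V b c n r) := by
  obtain ⟨r1, h1⟩ := Pool.Agent.Y879.GL.gap_polys 2 2 ((A : ℝ) + 2) 1 θ (by positivity) one_pos hθ
    k₀ x₀ ε hε
  refine ⟨max r1 2, ?_⟩
  intro r hr
  have hr2 : 2 ≤ r := (le_max_right _ _).trans hr
  obtain ⟨v, hv, hVlow⟩ := Pool.Agent.Y879.GL.V_low_log (2 * 2 + 1) r hr2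
  obtain ⟨Cv, hCv, hVup⟩ := Pool.Agent.Y879.GL.V_from_sys _ Pool.Agent.Y879.GL.sysX r hr2
  have hκ : 0 < min v (1 / Cv) := by positivity
  refine ⟨min v (1 / Cv), hκ, ?_⟩
  obtain ⟨n1, hn1⟩ := eventually_atTop.1 ((h1 r ((le_max_left _ _).trans hr) Cv).and
    ((Pool.Agent.Y879.GL.level_ok r hr2).and (hVlow.and hVup)))
  refine ⟨max n1 4, ?_⟩
  intro n hn hodd b c hb hc hpar h3 hnf
  obtain ⟨h2, h3', h4, h5⟩ := hn1 n ((le_max_left _ _).trans hn)
  have hn4 : 4 ≤ n := (le_max_right _ _).trans hn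
  have hnr : (4 : ℝ) ≤ n := by exact_mod_cast hn4
  have hn0 : (0 : ℝ) < n := by linarith
  have hn1' : (1 : ℝ) ≤ n := by linarith
  have hlog : 0 < Real.log n := by linarith [h3'.2.2.2.2]
  obtain ⟨W, hW⟩ : ∃ W : ℝ, W = (n : ℝ) ^ A := ⟨_, rfl⟩
  have hW1 : 1 ≤ W := by rw [hW]; exact one_le_pow₀ hn1'
  have hbW : |(b : ℝ)| ≤ W := by rw [hW]; exact_mod_cast hb
  have hcW : |(c : ℝ)| ≤ W := by rw [hW]; exact_mod_cast hc
  have hHb : (n : ℝ) + |(c : ℝ)| + |(b : ℝ)| + 1 ≤ (n : ℝ) ^ ((A : ℝ) + 2) := by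
    have e : (n : ℝ) ^ ((A : ℝ) + 2) = W * (n * n) := by
      rw [Real.rpow_add hn0, Real.rpow_natCast, ← hW]
      congr 1
      rw [show (2 : ℝ) = ((2 : ℕ) : ℝ) by norm_num, Real.rpow_natCast]
      ring
    rw [e]
    have e1 : (n : ℝ) * n ≤ W * (n * n) := le_mul_of_one_le_left (by positivity) hW1
    have e2 : 4 * (n : ℝ) ≤ n * n := mul_le_mul_of_nonneg_right hnr hn0.le
    have e3 : W * 16 ≤ W * ((n : ℝ) * n) := mul_le_mul_of_nonneg_left (by nlinarith) (by linarith)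
    have e4 : (n : ℝ) * 4 ≤ W * (n * n) := by linarith
    linarith
  have hus : Pool.Agent.Y879.GL.US 2 2 ((n : ℝ) ^ ((A : ℝ) + 2)) ((n : ℝ) ^ (1 : ℝ))
      (Pool.Agent.Y879.GL.s2 b c n) :=
    Pool.Agent.Y879.GL.s2_us b c n _ _ hHb hpar h3 hodd hnf
  have hQ : ∀ p m : ℕ, p.Prime → Pool.Agent.W123.RU.Poly.Q (fun _ : Fin 1 => (X : ℤ[X])) p m →
      Pool.Agent.W123.RU.Poly.Q (Pool.Agent.Y879.GL.s2 b c n) p m := by
    rintro p m _ ⟨_, hi⟩
    rw [Q_iff]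
    left
    rw [eval_X, Int.natCast_dvd_natCast] at hi
    exact hi
  have hVup' := (h5 _ hQ).2
  rw [V_eq]
  refine ⟨?_, ?_, ?_, ?_⟩
  · intro x hx hgood
    have hz3 : (3 : ℝ) ≤ (n : ℝ) ^ (1 / (r : ℝ)) := by
      have h4 : ((3 : ℕ) : ℝ) ≤ (n : ℝ) ^ (1 / (r : ℝ)) :=
        (Nat.le_floor_iff (by positivity)).1 h3'.1
      exact_mod_cast h4
    obtain ⟨g1, g2⟩ := hgood 2 Nat.prime_two (by push_cast; linarith)
    have hne : (x : ℤ) * ((n : ℤ) - ((x : ℤ) ^ 2 + b * x + c)) ≠ 0 := by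
      apply mul_ne_zero
      · intro h0
        exact g1 (by
          have : x = 0 := by exact_mod_cast h0
          rw [this]
          exact dvd_zero _)
      · intro h0
        exact g2 (by rw [h0]; exact dvd_zero _)
    refine ⟨hne, ?_⟩
    have hval : ((((x : ℤ) * ((n : ℤ) - ((x : ℤ) ^ 2 + b * x + c))).natAbs : ℕ) : ℝ) ≤
        ((n : ℝ) ^ (1 / (r : ℝ))) ^ ((3 * A + 5) * r) := by
      rw [Nat.cast_natAbs, Int.cast_abs]
      push_cast
      have hrne : (r : ℝ) ≠ 0 := by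
        have : (2 : ℝ) ≤ r := by exact_mod_cast hr2
        linarith
      have h7 : ((n : ℝ) ^ (1 / (r : ℝ))) ^ ((3 * A + 5) * r) = (n : ℝ) ^ (3 * A + 5) := by
        rw [← Real.rpow_natCast ((n : ℝ) ^ (1 / (r : ℝ))), ← Real.rpow_mul hn0.le,
          ← Real.rpow_natCast]
        congr 1
        push_cast
        field_simp
      rw [h7]
      obtain ⟨z, hz⟩ : ∃ z : ℝ, z = W * n := ⟨_, rfl⟩
      have hxz : (x : ℝ) ≤ z := by
        have : (x : ℝ) ≤ (n : ℝ) ^ (A + 1) := by exact_mod_cast hx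
        rw [hz, hW]
        refine this.trans (le_of_eq ?_)
        ring
      have hx0 : (0 : ℝ) ≤ x := Nat.cast_nonneg _
      have hWz : W ≤ z := by rw [hz]; exact le_mul_of_one_le_right (by linarith) hn1'
      have hnz : (n : ℝ) ≤ z := by rw [hz]; exact le_mul_of_one_le_left hn0.le hW1
      have hz1 : 1 ≤ z := by linarith
      have hz0 : 0 < z := by linarith
      have f0 : (n : ℝ) ^ (3 * A + 5) = z * (z * z) * (n * n) := by
        rw [hz, hW]
        ring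
      rw [f0, abs_mul, abs_of_nonneg hx0]
      have f1 : |(n : ℝ) - ((x : ℝ) ^ 2 + b * x + c)| ≤ z * z * 4 := by
        have g1 : |(x : ℝ) ^ 2| ≤ z * z := by
          rw [abs_of_nonneg (by positivity), pow_two]
          exact mul_le_mul hxz hxz hx0 hz0.le
        have g2 : |(b : ℝ) * x| ≤ z * z := by
          rw [abs_mul, abs_of_nonneg hx0]
          exact mul_le_mul (hbW.trans hWz) hxz hx0 hz0.le
        have g3 : |(c : ℝ)| ≤ z * z := (hcW.trans hWz).trans (le_mul_of_one_le_right hz0.le hz1)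
        have g4 : |(n : ℝ)| ≤ z * z := by
          rw [abs_of_nonneg hn0.le]
          exact hnz.trans (le_mul_of_one_le_right hz0.le hz1)
        have g5 := abs_add_three ((x : ℝ) ^ 2) (b * x) c
        have g6 := abs_sub (n : ℝ) ((x : ℝ) ^ 2 + b * x + c)
        linarith
      calc (x : ℝ) * |(n : ℝ) - ((x : ℝ) ^ 2 + b * x + c)| ≤ z * (z * z * 4) :=
            mul_le_mul hxz f1 (abs_nonneg _) hz0.le
        _ = z * (z * z) * 4 := by ring
        _ ≤ z * (z * z) * (n * n) := mul_le_mul_of_nonneg_left (by nlinarith) (by positivity)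
    refine Pool.Agent.Y879.GL.few_of_rough ((n : ℝ) ^ (1 / (r : ℝ))) (by linarith) _ ((3 * A + 5) * r)
      (Int.natAbs_ne_zero.2 hne) hval ?_
    intro q hq hqd
    by_contra hcon
    rw [not_lt] at hcon
    obtain ⟨g3, g4⟩ := hgood q hq hcon
    rcases (Nat.prime_iff_prime_int.1 hq).dvd_or_dvd (Int.natCast_dvd.2 hqd) with h | h
    · exact g3 (by exact_mod_cast h)
    · exact g4 h
  · refine le_trans ?_ (h4 _ (Pool.Agent.Y879.GL.us_perB hus) (Pool.Agent.Y879.GL.us_adm hus))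
    exact div_le_div_of_nonneg_right (min_le_left _ _) (by positivity)
  · refine hVup'.trans ?_
    rw [div_le_div_iff₀ hlog (by positivity), one_mul]
    have h6 : Cv * min v (1 / Cv) ≤ 1 := by
      calc Cv * min v (1 / Cv) ≤ Cv * (1 / Cv) := mul_le_mul_of_nonneg_left (min_le_right _ _) hCv.le
        _ = 1 := by field_simp
    calc Cv * (min v (1 / Cv) * Real.log n) = (Cv * min v (1 / Cv)) * Real.log n := by ring
      _ ≤ 1 * Real.log n := mul_le_mul_of_nonneg_right h6 hlog.le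
      _ = Real.log n := one_mul _
  · intro u Y k T hY hT
    rw [Near_eq]
    exact h2 _ hus hVup' u Y hY k T hT

end Pool.Agent.Results.MP_d9bc60_nt.GapLawEveryOdd
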