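import Pool.Agent.Y816.PD.UniL

set_option autoImplicit false

/-!
# Odd integers `n = f(x) + y` with almost primes `x`, `y` and restricted digits of `x`

`f(x) = x ^ 2 + β x + γ`, `β` and `γ` of opposite parity and `3` not dividing `β`. For every large odd `n` the integers
`x < b ^ K`, `K = log_b (sqrt n) - 1` (integer parts), whose `i`-th digit in base `b` belongs to an arbitrary set
`A i` for all `i < K` are considered, the product of the `|A i|` being at least `exp (- c K) b ^ K`.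
-/

namespace Pool.Agent.Results.MP_d9bc60_nt.RestrictedDigits

open Finset Filter Polynomial
open Pool.Agent.Y816.PD (ND NA Alm Rgh WG)

/-- `x (n - f(x))` -/
def G (β γ : ℤ) (n x : ℕ) : ℤ := (x : ℤ) * ((n : ℤ) - ((x : ℤ) ^ 2 + β * x + γ))

lemma adm {β γ : ℤ} (hpar : Odd (β + γ)) (h3 : ¬ (3 : ℤ) ∣ β) {n : ℕ} (hn : Odd n) (p : ℕ) (hp : p.Prime) :
    ∃ x : ℕ, ¬ (p : ℤ) ∣ G β γ n x := by
  have hpz := Nat.prime_iff_prime_int.1 hp
  rcases Nat.lt_or_ge p 4 with h4 | h4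
  · have hp2 : p = 2 ∨ p = 3 := by
      have := hp.two_le
      omega
    rcases hp2 with rfl | rfl
    · refine ⟨1, fun h => ?_⟩
      unfold G at h
      obtain ⟨u, hu⟩ := hpar
      obtain ⟨v, hv⟩ := hn
      rw [Nat.cast_one, one_mul] at h
      have hvz : (n : ℤ) = 2 * v + 1 := by exact_mod_cast hv
      obtain ⟨t, ht⟩ := h
      push_cast at ht
      omega
    · by_cases h1 : (3 : ℤ) ∣ (n : ℤ) - (1 + β + γ)
      · refine ⟨2, fun h => ?_⟩
        unfold G at h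
        rcases hpz.dvd_or_dvd h with h | h
        · obtain ⟨t, ht⟩ := h
          push_cast at ht
          omega
        · obtain ⟨t, ht⟩ := h
          obtain ⟨t', ht'⟩ := h1
          push_cast at ht
          exact h3 ⟨t' - t - 1, by linarith⟩
      · refine ⟨1, fun h => h1 ?_⟩
        unfold G at h
        rw [Nat.cast_one, one_mul] at h
        have e : ((n : ℤ) - ((1 : ℤ) ^ 2 + β * 1 + γ)) = (n : ℤ) - (1 + β + γ) := by ring
        rw [e] at h
        exact_mod_cast h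
  · obtain ⟨x, hx⟩ := Pool.Agent.Y816.PD.adm_deg hp
      (X * (X ^ 2 + C β * X + C (γ - n))) (by
        have : (X * (X ^ 2 + C β * X + C (γ - n)) : ℤ[X]).Monic := by
          monicity!
        rw [this.leadingCoeff]
        intro h
        exact hp.one_lt.ne' (Nat.dvd_one.1 (Int.natCast_dvd_natCast.1 (by exact_mod_cast h)))) (by
        refine lt_of_le_of_lt ?_ h4
        compute_degree)
    refine ⟨x, ?_⟩
    have : G β γ n x = -(X * (X ^ 2 + C β * X + C (γ - n)) : ℤ[X]).eval (x : ℤ) := by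
      unfold G
      simp only [eval_mul, eval_add, eval_pow, eval_X, eval_C]
      ring
    rw [this, dvd_neg]
    exact hx

lemma range_ok {β γ x s w n : ℤ} (q1 : 2 * x ≤ s) (q2 : s * s ≤ n) (q4 : 2 * w + 8 ≤ s) (q5 : 0 ≤ x)
    (q6 : 0 ≤ w) (q7 : -w ≤ β ∧ β ≤ w) (q8 : -w ≤ γ ∧ γ ≤ w) :
    x < n - (x ^ 2 + β * x + γ) ∧ n - (x ^ 2 + β * x + γ) ≤ 3 * n := by
  have q9 : β * x ≤ w * x := mul_le_mul_of_nonneg_right q7.2 q5
  have q10 : -w * x ≤ β * x := mul_le_mul_of_nonneg_right q7.1 q5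
  have q11 : w * x * 4 ≤ s * s := by
    have := mul_le_mul (show 2 * w ≤ s by linarith) q1 (by linarith) (by linarith : (0 : ℤ) ≤ s)
    linarith
  have q12 : x ^ 2 * 4 ≤ s * s := by
    have := mul_le_mul q1 q1 (by linarith) (by linarith : (0 : ℤ) ≤ s)
    linarith
  have q13 : 8 * s ≤ s * s := mul_le_mul_of_nonneg_right (by linarith) (by linarith)
  have q14 : 0 ≤ x ^ 2 := sq_nonneg x
  constructor
  · linarith
  · linarith

/-- **Odd integers `n = f(x) + y` with almost primes `x`, `y` and restricted digits of `x`.** -/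
theorem result (β γ : ℤ) (hpar : Odd (β + γ)) (h3 : ¬ (3 : ℤ) ∣ β) :
    ∃ c : ℝ, 0 < c ∧ ∃ r₀ : ℕ, 2 ≤ r₀ ∧ ∀ r : ℕ, r₀ ≤ r →
      ∀ b : ℕ, 2 ≤ b → ∃ κ C : ℝ, 0 < κ ∧ 0 < C ∧ ∀ᶠ n : ℕ in atTop, Odd n → ∀ K : ℕ,
        K + 1 = Nat.log b (Nat.sqrt n) →
        ∀ A : ℕ → Finset ℕ, (∀ i < K, A i ⊆ range b) → (b : ℝ) ^ K ≤ Real.exp (c * K) * NA K A →
        ((∃ d ∈ A 0, (G β γ n d).natAbs.Coprime b) → (∃ d ∈ A (K - 1), d ≠ 0) →
          κ * NA K A * WG (G β γ n) (b ^ K) ≤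
            ND b K A {x | (1 < x ∧ (x : ℤ) < (n : ℤ) - ((x : ℤ) ^ 2 + β * x + γ)) ∧
              x ∈ Alm (G β γ n) r (b ^ K)}) ∧
        (ND b K A {x | x.Prime ∧ ((n : ℤ) - ((x : ℤ) ^ 2 + β * x + γ)).natAbs.Prime} : ℝ) ≤
          C * NA K A * WG (G β γ n) (b ^ K) := by
  obtain ⟨c, hc, r₀, hr₀, h⟩ := Pool.Agent.Y816.PD.uni_top 3 9 (by norm_num)
  refine ⟨c, hc, r₀, hr₀, fun r hr b hb => ?_⟩
  have h2r : 2 ≤ r := hr₀.trans hr
  obtain ⟨κ, C₁, hκ, hC, h1⟩ := h r hr b hb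
  refine ⟨κ, C₁, hκ, hC, ?_⟩
  obtain ⟨K0, hK0⟩ := eventually_atTop.1 h1
  obtain ⟨w, hw⟩ : ∃ w : ℕ, w = β.natAbs + γ.natAbs + 10 := ⟨_, rfl⟩
  filter_upwards [eventually_ge_atTop (b ^ (2 * (K0 + w + 5)))] with n hn hodd K hK A hA hprod
  obtain ⟨s, hs⟩ : ∃ s, s = Nat.sqrt n := ⟨_, rfl⟩
  have hs1 : s * s ≤ n := by rw [hs]; exact Nat.sqrt_le n
  have hs2 : n < (s + 1) * (s + 1) := by rw [hs]; exact Nat.lt_succ_sqrt n
  rw [← hs] at hK
  have hsb : b ^ (K0 + w + 5) ≤ s := by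
    rw [hs, Nat.le_sqrt]
    calc b ^ (K0 + w + 5) * b ^ (K0 + w + 5) = b ^ (2 * (K0 + w + 5)) := by rw [← pow_add]; congr 1; ring
      _ ≤ n := hn
  have hs0 : 0 < s := lt_of_lt_of_le (by positivity) hsb
  have hKK : K0 + w + 5 ≤ K + 1 := by
    rw [hK]
    exact Nat.le_log_of_pow_le (by omega) hsb
  have hb1 : b ^ (K + 1) ≤ s := by
    rw [hK]
    exact Nat.pow_log_le_self b (by omega)
  have hb2 : s < b ^ (K + 2) := by
    have : s < b ^ (Nat.log b s + 1) := Nat.lt_pow_succ_log_self (by omega) _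
    rwa [← hK] at this
  have hKw : K < b ^ K := Nat.lt_pow_self (by omega)
  have hbs : 2 * b ^ K ≤ s := by
    refine le_trans ?_ hb1
    rw [pow_succ, mul_comm]
    exact Nat.mul_le_mul_left _ hb
  have hβ : |β| ≤ w := by
    rw [hw]
    push_cast
    have := abs_nonneg γ
    linarith
  have hγ : |γ| ≤ w := by
    rw [hw]
    push_cast
    have := abs_nonneg β
    linarith
  have hwK : w + 4 ≤ K := by omega
  have hxs : ∀ x : ℕ, x < b ^ K → (x : ℤ) < (n : ℤ) - ((x : ℤ) ^ 2 + β * x + γ) ∧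
      (n : ℤ) - ((x : ℤ) ^ 2 + β * x + γ) ≤ 3 * n := by
    intro x hx
    have q1 : 2 * (x : ℤ) ≤ s := by exact_mod_cast (by omega : 2 * x ≤ s)
    have q2 : (s : ℤ) * s ≤ n := by exact_mod_cast hs1
    have q4 : 2 * (w : ℤ) + 8 ≤ s := by
      have : 2 * w + 8 ≤ s := by omega
      exact_mod_cast this
    exact range_ok q1 q2 q4 (Nat.cast_nonneg _) (Nat.cast_nonneg _) (abs_le.1 hβ) (abs_le.1 hγ)
  have hpoly : ∃ P : ℤ[X], P.natDegree ≤ 3 ∧ ∀ k : ℕ, P.eval (k : ℤ) = G β γ n k := by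
    refine ⟨X * (C (n : ℤ) - (X ^ 2 + C β * X + C γ)), ?_, fun k => ?_⟩
    · compute_degree
    · unfold G
      simp only [eval_mul, eval_add, eval_sub, eval_pow, eval_X, eval_C]
  have hsize : ∀ k : ℕ, k < b ^ K → (G β γ n k).natAbs ≤ b ^ (9 * K) := by
    intro k hk
    obtain ⟨h5, h6⟩ := hxs k hk
    have e1 : s + 1 ≤ b ^ (2 * K) := by
      have : b ^ (K + 2) ≤ b ^ (2 * K) := Nat.pow_le_pow_right (by omega) (by omega)
      omega
    have e2 : 3 * n ≤ b ^ (8 * K) := by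
      have e3 : 3 ≤ b ^ (4 * K) := by
        calc 3 ≤ 2 ^ 2 := by norm_num
          _ ≤ b ^ 2 := Nat.pow_le_pow_left hb 2
          _ ≤ b ^ (4 * K) := Nat.pow_le_pow_right (by omega) (by omega)
      calc 3 * n ≤ b ^ (4 * K) * (b ^ (2 * K) * b ^ (2 * K)) :=
            Nat.mul_le_mul e3 (hs2.le.trans (Nat.mul_le_mul e1 e1))
        _ = b ^ (8 * K) := by rw [← pow_add, ← pow_add]; congr 1; ring
    have e4 : ((n : ℤ) - ((k : ℤ) ^ 2 + β * k + γ)).natAbs ≤ b ^ (8 * K) := by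
      refine le_trans ?_ e2
      have : (0 : ℤ) ≤ k := Nat.cast_nonneg _
      zify
      rw [abs_of_nonneg (by linarith)]
      exact h6
    unfold G
    rw [Int.natAbs_mul, Int.natAbs_natCast]
    calc k * ((n : ℤ) - ((k : ℤ) ^ 2 + β * k + γ)).natAbs ≤ b ^ K * b ^ (8 * K) :=
          Nat.mul_le_mul hk.le e4
      _ = b ^ (9 * K) := by rw [← pow_add]; congr 1; ring
  obtain ⟨h4, h5⟩ := hK0 K (by omega) (G β γ n) hpoly (adm hpar h3 hodd) hsize A hA hprod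
  have hbig : 1 < b ^ (K - 1) := Nat.one_lt_pow (by omega) (by omega)
  constructor
  · intro hd htop
    refine (h4 hd htop).trans ?_
    apply Nat.cast_le.2
    apply Pool.Agent.Y816.PD.ND_mono'
    intro k hkK hk
    exact ⟨⟨lt_of_lt_of_le hbig hk.1, (hxs k hkK).1⟩, hk.2⟩
  · refine le_trans ?_ h5
    apply Nat.cast_le.2
    apply Pool.Agent.Y816.PD.ND_mono'
    intro k hkK hk
    obtain ⟨k1, k2⟩ := hk
    intro p hp hd
    have hpz := Nat.prime_iff_prime_int.1 hp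
    refine Pool.Agent.Y816.PD.lt_pow_of_le hp ?_ h2r
    unfold G at hd
    rcases hpz.dvd_or_dvd hd with hd | hd
    · exact ((Nat.prime_dvd_prime_iff_eq hp k1).1 (Int.natCast_dvd_natCast.1 hd)).ge
    · have h6 := (Nat.prime_dvd_prime_iff_eq hp k2).1 (Int.natCast_dvd.1 hd)
      have h7 := (hxs k hkK).1
      omega

end Pool.Agent.Results.MP_d9bc60_nt.RestrictedDigits
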